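import Mathlib

/-!
# Large sets with small intersections
-/

set_option autoImplicit false

namespace Pool.Agent.Helper26.PC

open Finset

open Classical in
/-- Large subsets of a set which meet pairwise in at most one element have a small total size. -/
theorem sum_card_le {α β : Type} (O : Finset α) (T : Finset β) (I : β → Finset α) (c : ℝ)
    (hc1 : 1 < c)
    (hI : ∀ H ∈ T, I H ⊆ O) (h1 : ∀ H ∈ T, ∀ H' ∈ T, H ≠ H' → (I H ∩ I H').card ≤ 1)
    (h2 : ∀ H ∈ T, c * (O.card : ℝ) ≤ ((I H).card : ℝ) ^ 2) :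
    (c - 1) * ∑ H ∈ T, ((I H).card : ℝ) ≤ c * (O.card : ℝ) := by
  set S : ℝ := ∑ H ∈ T, ((I H).card : ℝ) with hS
  set o : ℝ := (O.card : ℝ) with ho
  set k : ℝ := (T.card : ℝ) with hk
  have ho0 : 0 ≤ o := Nat.cast_nonneg _
  have hS0 : 0 ≤ S := Finset.sum_nonneg fun _ _ => Nat.cast_nonneg _
  let r : α → ℝ := fun g => ∑ H ∈ T, if g ∈ I H then (1 : ℝ) else 0
  have hcard : ∀ B : Finset α, B ⊆ O → (B.card : ℝ) = ∑ g ∈ O, if g ∈ B then (1 : ℝ) else 0 := by
    intro B hB
    rw [← Finset.sum_filter, Finset.sum_const, nsmul_eq_mul, mul_one]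
    congr 2
    ext g
    simp only [Finset.mem_filter]
    exact ⟨fun h => ⟨hB h, h⟩, fun h => h.2⟩
  have e1 : ∑ g ∈ O, r g = S := by
    rw [Finset.sum_comm]
    exact Finset.sum_congr rfl fun H hH => (hcard (I H) (hI H hH)).symm
  have e2 : ∑ g ∈ O, r g ^ 2 ≤ S + k ^ 2 := by
    have e3 : ∀ g, r g ^ 2 = ∑ H ∈ T, ∑ H' ∈ T,
        (if g ∈ I H ∩ I H' then (1 : ℝ) else 0) := by
      intro g
      rw [sq, Finset.sum_mul_sum]
      refine Finset.sum_congr rfl fun H _ => Finset.sum_congr rfl fun H' _ => ?_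
      by_cases h3 : g ∈ I H <;> by_cases h4 : g ∈ I H' <;> simp [h3, h4]
    rw [Finset.sum_congr rfl fun g _ => e3 g, Finset.sum_comm]
    have e4 : ∀ H ∈ T, ∑ g ∈ O, ∑ H' ∈ T, (if g ∈ I H ∩ I H' then (1 : ℝ) else 0) ≤
        (I H).card + k := by
      intro H hH
      rw [Finset.sum_comm]
      have e5 : ∀ H' ∈ T, ∑ g ∈ O, (if g ∈ I H ∩ I H' then (1 : ℝ) else 0) ≤
          (if H' = H then ((I H).card : ℝ) else 0) + 1 := by
        intro H' hH'
        rw [← hcard (I H ∩ I H') (Finset.inter_subset_left.trans (hI H hH))]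
        by_cases h : H' = H
        · subst h
          rw [if_pos rfl, Finset.inter_self]
          linarith
        · rw [if_neg h, zero_add]
          exact_mod_cast h1 H hH H' hH' (Ne.symm h)
      refine (Finset.sum_le_sum e5).trans ?_
      rw [Finset.sum_add_distrib, Finset.sum_const, nsmul_eq_mul, mul_one,
        Finset.sum_ite_eq' T H, if_pos hH]
    refine (Finset.sum_le_sum e4).trans ?_
    rw [Finset.sum_add_distrib, Finset.sum_const, nsmul_eq_mul]
    exact le_of_eq (by rw [← hk, ← hS]; ring)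
  have e3 : S ^ 2 ≤ o * (S + k ^ 2) := by
    rw [← e1]
    refine (sq_sum_le_card_mul_sum_sq (s := O) (f := r)).trans ?_
    rw [e1]
    exact mul_le_mul_of_nonneg_left e2 ho0
  have hco : 0 ≤ c * o := mul_nonneg (by linarith) ho0
  have e4 : c * o * k ^ 2 ≤ S ^ 2 := by
    have e5 : k * Real.sqrt (c * o) ≤ S := by
      rw [hk, hS, ← nsmul_eq_mul, ← Finset.sum_const]
      refine Finset.sum_le_sum fun H hH => ?_
      apply Real.sqrt_le_iff.mpr
      exact ⟨Nat.cast_nonneg _, h2 H hH⟩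
    have e6 : (k * Real.sqrt (c * o)) ^ 2 ≤ S ^ 2 :=
      pow_le_pow_left₀ (mul_nonneg (Nat.cast_nonneg _) (Real.sqrt_nonneg _)) e5 2
    rw [mul_pow, Real.sq_sqrt hco] at e6
    linarith
  have e5 : S * ((c - 1) * S) ≤ S * (c * o) := by
    have : c * S ^ 2 ≤ c * (o * (S + k ^ 2)) := mul_le_mul_of_nonneg_left e3 (by linarith)
    nlinarith
  rcases hS0.eq_or_lt with h | h
  · rw [← h]
    linarith
  · exact le_of_mul_le_mul_left e5 h

end Pool.Agent.Helper26.PC
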