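import Pool.Agent.Helper80.LP.Pairs
import Pool.Agent.Helper28.BPack.ModLine
import Pool.Agent.Helper26.PC.Count

/-!
# Pairs of points of a plane and points off the plane
-/

set_option autoImplicit false
set_option linter.unusedSectionVars false

namespace Pool.Agent.Helper26.PC

open Finset Pool.Agent.Helper28.BPack Pool.Agent.Helper61.Motz
open scoped Classical

variable {L : Type} [Lattice L] [BoundedOrder L] [Finite L] [IsUpperModularLattice L]

/-- A point of `Q` on the cone of `l ≤ Q` over a point off `Q` is on `l`. -/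
theorem cone_inf {Q z l p : L} (hz : IsAtom z) (hzQ : ¬ z ≤ Q) (hl : l ≤ Q) (hp : IsAtom p)
    (hpQ : p ≤ Q) (h : p ≤ z ⊔ l) : p ≤ l := by
  by_contra hpl
  have hzl : ¬ z ≤ l := fun h1 => hzQ (h1.trans hl)
  have r1 := rk_sup_atom hp hpl
  have r2 := rk_sup_atom hz hzl
  have h1 : l ⊔ p ≤ l ⊔ z := sup_le le_sup_left (by rw [sup_comm]; exact h)
  have h2 := eq_of_le_of_rk h1 (by omega)
  exact hzQ (((le_sup_right : z ≤ l ⊔ z).trans h2.ge).trans (sup_le hl hpQ))

theorem rk_tri {Q z q r : L} (hz : IsAtom z) (hzQ : ¬ z ≤ Q) (hq : IsAtom q) (hqQ : q ≤ Q)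
    (hr : IsAtom r) (hrQ : r ≤ Q) (hqr : q ≠ r) : rk (z ⊔ q ⊔ r) = 3 := by
  have h1 : z ⊔ q ⊔ r = q ⊔ r ⊔ z := by rw [sup_comm (q ⊔ r) z, sup_assoc]
  rw [h1, rk_sup_atom hz (fun h => hzQ (h.trans (sup_le hqQ hrQ))), rk_line hq hr hqr]

theorem rk_two {Q z q : L} (hz : IsAtom z) (hzQ : ¬ z ≤ Q) (hq : IsAtom q) (hqQ : q ≤ Q) :
    rk (z ⊔ q) = 2 :=
  rk_line hz hq (fun h => hzQ (h ▸ hqQ))

theorem eq_sup {z q r x : L} (hr : IsAtom r) (hx : IsAtom x)
    (h : x ≤ z ⊔ q ⊔ r) (hn : ¬ x ≤ z ⊔ q) : z ⊔ q ⊔ x = z ⊔ q ⊔ r := by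
  refine eq_of_le_of_rk (sup_le le_sup_left h) ?_
  rw [rk_sup_atom hx hn]
  exact rk_sup_atom_le hr

/-- The points of `A` below `x`. -/
noncomputable def pts (A : Finset L) (x : L) : Finset L := A.filter (· ≤ x)

/-- The points of `A` below `x` and off `Q`. -/
noncomputable def off (A : Finset L) (Q x : L) : Finset L := A.filter (fun y => y ≤ x ∧ ¬ y ≤ Q)

theorem mem_pts {A : Finset L} {x y : L} : y ∈ pts A x ↔ y ∈ A ∧ y ≤ x := Finset.mem_filter

theorem mem_off {A : Finset L} {Q x y : L} : y ∈ off A Q x ↔ y ∈ A ∧ y ≤ x ∧ ¬ y ≤ Q :=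
  Finset.mem_filter

/-- **Counting.**  For different points `z`, `x` off `Q`, at most `N K` ordered pairs of points of
`Q` on lines with at most `K` points span with `z` a plane through `x`. -/
theorem card_pairs {A : Finset L} (hA : ∀ a ∈ A, IsAtom a) {Q z x : L} (hz : z ∈ A)
    (hzQ : ¬ z ≤ Q) (hx : x ∈ A) (hxQ : ¬ x ≤ Q) (hxz : x ≠ z) {K : ℕ} (hK : 1 ≤ K)
    (B : Finset (L × L))
    (hB : ∀ p ∈ B, p.1 ∈ pts A Q ∧ p.2 ∈ pts A Q ∧ p.1 ≠ p.2 ∧ x ≤ z ⊔ p.1 ⊔ p.2 ∧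
      (pts A (p.1 ⊔ p.2)).card ≤ K) :
    B.card ≤ (pts A Q).card * K := by
  have hxa := hA x hx
  have hza := hA z hz
  let F : L → Finset L := fun q => (pts A Q).filter (fun r => (q, r) ∈ B)
  have hF : B ⊆ (pts A Q).biUnion (fun q => (F q).image (fun r => (q, r))) := by
    intro p hp
    obtain ⟨h1, h2, -⟩ := hB p hp
    rw [Finset.mem_biUnion]
    refine ⟨p.1, h1, ?_⟩
    rw [Finset.mem_image]
    refine ⟨p.2, ?_, rfl⟩
    rw [Finset.mem_filter]
    exact ⟨h2, hp⟩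
  have h1 : B.card ≤ ∑ q ∈ pts A Q, (F q).card :=
    (Finset.card_le_card hF).trans (Finset.card_biUnion_le.trans
      (Finset.sum_le_sum fun q _ => Finset.card_image_le))
  have h2 : ∀ q ∈ pts A Q, (F q).card + 1 ≤ K + (if x ≤ z ⊔ q then (pts A Q).card else 0) := by
    intro q hq
    have hqn : q ∉ F q := by
      intro h
      exact (hB _ (Finset.mem_filter.mp h).2).2.2.1 rfl
    have h3 : (F q).card + 1 = (insert q (F q)).card := (Finset.card_insert_of_notMem hqn).symm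
    by_cases hc : x ≤ z ⊔ q
    · rw [if_pos hc, h3]
      have h4 : insert q (F q) ⊆ pts A Q := by
        intro r hr
        rcases Finset.mem_insert.mp hr with rfl | h
        · exact hq
        · exact (Finset.mem_filter.mp h).1
      have := Finset.card_le_card h4
      omega
    · rw [if_neg hc, add_zero]
      rcases (F q).eq_empty_or_nonempty with h0 | ⟨r0, hr0⟩
      · rw [h0]
        simpa using hK
      · obtain ⟨hq1, hr1, hne, hxr, hKr⟩ := hB _ (Finset.mem_filter.mp hr0).2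
        rw [h3]
        refine (Finset.card_le_card ?_).trans hKr
        intro r hr
        rw [mem_pts]
        rcases Finset.mem_insert.mp hr with rfl | h
        · exact ⟨(mem_pts.mp hq).1, le_sup_left⟩
        · obtain ⟨-, hr2, -, hxr2, -⟩ := hB _ (Finset.mem_filter.mp h).2
          have hra := hA r (mem_pts.mp hr2).1
          have hr0a := hA r0 (mem_pts.mp hr1).1
          have e1 := eq_sup (z := z) (q := q) hr0a hxa hxr hc
          have e2 := eq_sup (z := z) (q := q) hra hxa hxr2 hc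
          have e3 : r ≤ z ⊔ (q ⊔ r0) := by
            rw [← sup_assoc, ← e1, e2]
            exact le_sup_right
          exact ⟨(mem_pts.mp hr2).1, cone_inf hza hzQ
            (sup_le (mem_pts.mp hq).2 (mem_pts.mp hr1).2) hra (mem_pts.mp hr2).2 e3⟩
  have h3 : ∑ q ∈ pts A Q, (if x ≤ z ⊔ q then (pts A Q).card else 0) ≤ (pts A Q).card := by
    rw [← Finset.sum_filter, Finset.sum_const, smul_eq_mul]
    have h4 : ((pts A Q).filter (fun q => x ≤ z ⊔ q)).card ≤ 1 := by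
      rw [Finset.card_le_one]
      intro q hq r hr
      rw [Finset.mem_filter] at hq hr
      have hqa := hA q (mem_pts.mp hq.1).1
      have hra := hA r (mem_pts.mp hr.1).1
      have hqQ := (mem_pts.mp hq.1).2
      have hrQ := (mem_pts.mp hr.1).2
      have e1 : z ⊔ x = z ⊔ q := by
        refine eq_of_le_of_rk (sup_le le_sup_left hq.2) ?_
        rw [rk_two hza hzQ hqa hqQ, rk_line hza hxa (Ne.symm hxz)]
      have e2 : z ⊔ x = z ⊔ r := by
        refine eq_of_le_of_rk (sup_le le_sup_left hr.2) ?_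
        rw [rk_two hza hzQ hra hrQ, rk_line hza hxa (Ne.symm hxz)]
      have e3 : q ≤ z ⊔ r := by
        rw [← e2, e1]
        exact le_sup_right
      have e4 := cone_inf hza hzQ hrQ hqa hqQ e3
      exact eq_of_le_of_rk e4 (by rw [rk_atom hqa, rk_atom hra])
    calc _ ≤ 1 * (pts A Q).card := Nat.mul_le_mul_right _ h4
      _ = _ := one_mul _
  have h4 := Finset.sum_le_sum h2
  rw [Finset.sum_add_distrib, Finset.sum_add_distrib, Finset.sum_const, Finset.sum_const,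
    smul_eq_mul, smul_eq_mul, mul_one] at h4
  omega

/-- The pairs of points of `Q` on long lines. -/
theorem card_long {A : Finset L} (hA : ∀ a ∈ A, IsAtom a) {Q : L} {s k : ℕ}
    (hs : ∀ g, rk g = 2 → (pts A g).card ≤ s) {c : ℝ} (hc : 1 < c)
    (hk : c * ((pts A Q).card : ℝ) ≤ ((k : ℝ) + 1) ^ 2) (B : Finset (L × L))
    (hB : ∀ p ∈ B, p.1 ∈ pts A Q ∧ p.2 ∈ pts A Q ∧ p.1 ≠ p.2 ∧
      ¬ (pts A (p.1 ⊔ p.2)).card ≤ k) :
    (c - 1) * (B.card : ℝ) ≤ s * (c * ((pts A Q).card : ℝ)) := by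
  let T : Finset L := B.image (fun p => p.1 ⊔ p.2)
  have hT : ∀ l ∈ T, ∃ p ∈ B, p.1 ⊔ p.2 = l := fun l hl => Finset.mem_image.mp hl
  have hTr : ∀ l ∈ T, rk l = 2 ∧ l ≤ Q ∧ k + 1 ≤ (pts A l).card := by
    intro l hl
    obtain ⟨p, hp, rfl⟩ := hT l hl
    obtain ⟨h1, h2, h3, h4⟩ := hB p hp
    exact ⟨rk_line (hA _ (mem_pts.mp h1).1) (hA _ (mem_pts.mp h2).1) h3,
      sup_le (mem_pts.mp h1).2 (mem_pts.mp h2).2, by omega⟩
  have hI : ∀ l ∈ T, pts A l ⊆ pts A Q := by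
    intro l hl x hx
    rw [mem_pts] at hx ⊢
    exact ⟨hx.1, hx.2.trans (hTr l hl).2.1⟩
  have h1 : ∀ l ∈ T, ∀ l' ∈ T, l ≠ l' → (pts A l ∩ pts A l').card ≤ 1 := by
    intro l hl l' hl' hne
    rw [Finset.card_le_one]
    intro x hx y hy
    by_contra hxy
    rw [Finset.mem_inter, mem_pts, mem_pts] at hx hy
    have hxa := hA x hx.1.1
    have hya := hA y hy.1.1
    apply hne
    have e1 : x ⊔ y = l := eq_of_le_of_rk (sup_le hx.1.2 hy.1.2)
      (by rw [rk_line hxa hya hxy, (hTr l hl).1])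
    have e2 : x ⊔ y = l' := eq_of_le_of_rk (sup_le hx.2.2 hy.2.2)
      (by rw [rk_line hxa hya hxy, (hTr l' hl').1])
    rw [← e1, e2]
  have h2 := sum_card_le (pts A Q) T (fun l => pts A l) c hc hI h1 (by
    intro l hl
    refine hk.trans ?_
    have h3 : ((k : ℝ) + 1) ≤ ((pts A l).card : ℝ) := by exact_mod_cast (hTr l hl).2.2
    exact pow_le_pow_left₀ (by positivity) h3 2)
  have h3 : B ⊆ T.biUnion (fun l => pts A l ×ˢ pts A l) := by
    intro p hp
    obtain ⟨g1, g2, g3, g4⟩ := hB p hp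
    rw [Finset.mem_biUnion]
    refine ⟨p.1 ⊔ p.2, Finset.mem_image.mpr ⟨p, hp, rfl⟩, ?_⟩
    rw [Finset.mem_product, mem_pts, mem_pts]
    exact ⟨⟨(mem_pts.mp g1).1, le_sup_left⟩, ⟨(mem_pts.mp g2).1, le_sup_right⟩⟩
  have h4 : (B.card : ℝ) ≤ s * ∑ l ∈ T, ((pts A l).card : ℝ) := by
    have h5 : B.card ≤ ∑ l ∈ T, s * (pts A l).card := by
      refine (Finset.card_le_card h3).trans (Finset.card_biUnion_le.trans ?_)
      refine Finset.sum_le_sum fun l hl => ?_
      rw [Finset.card_product]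
      exact Nat.mul_le_mul_right _ (hs l (hTr l hl).1)
    rw [← Finset.mul_sum] at h5
    exact_mod_cast h5
  have hs0 : (0 : ℝ) ≤ s := Nat.cast_nonneg _
  calc (c - 1) * (B.card : ℝ) ≤ (c - 1) * (s * ∑ l ∈ T, ((pts A l).card : ℝ)) :=
        mul_le_mul_of_nonneg_left h4 (by linarith)
    _ = s * ((c - 1) * ∑ l ∈ T, ((pts A l).card : ℝ)) := by ring
    _ ≤ _ := mul_le_mul_of_nonneg_left h2 hs0

end Pool.Agent.Helper26.PC
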