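import Pool.Agent.Helper26.PC.Lat
import Pool.Agent.Helper80.BP.Crit3All

/-!
# Rank four data over a large plane
-/

set_option autoImplicit false
set_option linter.unusedSectionVars false

namespace Pool.Agent.Helper26.PC

open Finset Pool.Agent.Helper28.BPack Pool.Agent.Helper61.Motz Pool.Agent.Helper63.HM
  Pool.Agent.Helper80.LP
open scoped Classical

variable {L : Type} [Lattice L] [BoundedOrder L] [Finite L] [IsUpperModularLattice L]

/-- The allowed pairs of a user `z`. -/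
noncomputable def Pz (A : Finset L) (Q o : L) (k : ℕ) (z : L) : Finset (L × L) :=
  (pts A Q ×ˢ pts A Q).filter (fun p => p.1 ≠ p.2 ∧ (pts A (p.1 ⊔ p.2)).card ≤ k ∧
    ¬ o ≤ z ⊔ p.1 ⊔ p.2)

theorem mem_Pz {A : Finset L} {Q o : L} {k : ℕ} {z : L} {p : L × L} :
    p ∈ Pz A Q o k z ↔ p.1 ∈ pts A Q ∧ p.2 ∈ pts A Q ∧ p.1 ≠ p.2 ∧
      (pts A (p.1 ⊔ p.2)).card ≤ k ∧ ¬ o ≤ z ⊔ p.1 ⊔ p.2 := by
  simp only [Pz, Finset.mem_filter, Finset.mem_product]
  tauto

/-- The number of allowed pairs. -/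
theorem card_Pz {A : Finset L} (hA : ∀ a ∈ A, IsAtom a) {Q o z : L} (ho : o ∈ A) (hoQ : ¬ o ≤ Q)
    (hz : z ∈ A) (hzQ : ¬ z ≤ Q) (hzo : z ≠ o) {s k : ℕ} (hs1 : 1 ≤ s)
    (hs : ∀ g, rk g = 2 → (pts A g).card ≤ s) {c : ℝ} (hc : 1 < c)
    (hk : c * ((pts A Q).card : ℝ) ≤ ((k : ℝ) + 1) ^ 2) :
    ((pts A Q).card : ℝ) ^ 2 ≤ (Pz A Q o k z).card + (pts A Q).card + s * (pts A Q).card +
      s * (c / (c - 1) * (pts A Q).card) := by
  let B1 : Finset (L × L) := (pts A Q ×ˢ pts A Q).filter (fun p => p.1 ≠ p.2 ∧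
    o ≤ z ⊔ p.1 ⊔ p.2)
  let B2 : Finset (L × L) := (pts A Q ×ˢ pts A Q).filter (fun p => p.1 ≠ p.2 ∧
    ¬ (pts A (p.1 ⊔ p.2)).card ≤ k)
  let D : Finset (L × L) := (pts A Q).image (fun q => (q, q))
  have hsub : pts A Q ×ˢ pts A Q ⊆ Pz A Q o k z ∪ D ∪ B1 ∪ B2 := by
    intro p hp
    have hp' := Finset.mem_product.mp hp
    simp only [Finset.mem_union, mem_Pz, D, B1, B2, Finset.mem_filter, Finset.mem_product,
      Finset.mem_image]
    by_cases h1 : p.1 = p.2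
    · left; left; right
      exact ⟨p.1, hp'.1, Prod.ext rfl h1⟩
    · by_cases h2 : o ≤ z ⊔ p.1 ⊔ p.2
      · left; right
        exact ⟨hp', h1, h2⟩
      · by_cases h3 : (pts A (p.1 ⊔ p.2)).card ≤ k
        · left; left; left
          exact ⟨hp'.1, hp'.2, h1, h3, h2⟩
        · right
          exact ⟨hp', h1, h3⟩
  have hcard : (pts A Q).card * (pts A Q).card ≤ (Pz A Q o k z).card + D.card + B1.card +
      B2.card := by
    rw [← Finset.card_product]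
    refine (Finset.card_le_card hsub).trans ?_
    refine (Finset.card_union_le _ _).trans ?_
    have := Finset.card_union_le (Pz A Q o k z ∪ D) B1
    have := Finset.card_union_le (Pz A Q o k z) D
    omega
  have hD : D.card ≤ (pts A Q).card := Finset.card_image_le
  have hB1 : B1.card ≤ (pts A Q).card * s := by
    refine card_pairs hA hz hzQ ho hoQ (Ne.symm hzo) hs1 B1 ?_
    intro p hp
    obtain ⟨h1, h2, h3⟩ := Finset.mem_filter.mp hp
    rw [Finset.mem_product] at h1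
    refine ⟨h1.1, h1.2, h2, h3, hs _ ?_⟩
    exact rk_line (hA _ (mem_pts.mp h1.1).1) (hA _ (mem_pts.mp h1.2).1) h2
  have hB2 : (c - 1) * (B2.card : ℝ) ≤ s * (c * ((pts A Q).card : ℝ)) := by
    refine card_long hA hs hc hk B2 ?_
    intro p hp
    obtain ⟨h1, h2, h3⟩ := Finset.mem_filter.mp hp
    rw [Finset.mem_product] at h1
    exact ⟨h1.1, h1.2, h2, h3⟩
  have hc1 : 0 < c - 1 := by linarith
  have hB2' : (B2.card : ℝ) ≤ s * (c / (c - 1) * (pts A Q).card) := by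
    have e1 : s * (c / (c - 1) * ((pts A Q).card : ℝ)) =
        (s * (c * ((pts A Q).card : ℝ))) / (c - 1) := by
      field_simp
    rw [e1, le_div_iff₀ hc1]
    linarith
  have hcardR : ((pts A Q).card : ℝ) * (pts A Q).card ≤ (Pz A Q o k z).card + D.card + B1.card +
      B2.card := by exact_mod_cast hcard
  have hDR : (D.card : ℝ) ≤ (pts A Q).card := by exact_mod_cast hD
  have hB1R : (B1.card : ℝ) ≤ (pts A Q).card * s := by exact_mod_cast hB1
  nlinarith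

/-- The planes of the allowed pairs have few points off `Q` on the average. -/
theorem sum_off {A : Finset L} (hA : ∀ a ∈ A, IsAtom a) {Q o z : L}
    (hz : z ∈ A) (hzQ : ¬ z ≤ Q) {k : ℕ} (hk1 : 1 ≤ k) :
    ∑ p ∈ Pz A Q o k z, (off A Q (z ⊔ p.1 ⊔ p.2)).card ≤
      (pts A Q).card ^ 2 + A.card * ((pts A Q).card * k) := by
  have h1 : ∑ p ∈ Pz A Q o k z, (off A Q (z ⊔ p.1 ⊔ p.2)).card =
      ∑ x ∈ A.filter (fun x => ¬ x ≤ Q),
        ((Pz A Q o k z).filter (fun p => x ≤ z ⊔ p.1 ⊔ p.2)).card := by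
    have h2 := Finset.sum_card_bipartiteAbove_eq_sum_card_bipartiteBelow
      (s := Pz A Q o k z) (t := A.filter (fun x => ¬ x ≤ Q))
      (fun (p : L × L) (x : L) => x ≤ z ⊔ p.1 ⊔ p.2)
    have h3 : ∀ p : L × L, (Finset.bipartiteAbove
        (fun (p : L × L) (x : L) => x ≤ z ⊔ p.1 ⊔ p.2) (A.filter (fun x => ¬ x ≤ Q)) p) =
        off A Q (z ⊔ p.1 ⊔ p.2) := by
      intro p
      ext x
      simp only [Finset.bipartiteAbove, Finset.mem_filter, mem_off]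
      tauto
    rw [Finset.sum_congr rfl fun p _ => congrArg Finset.card (h3 p)] at h2
    exact h2
  rw [h1]
  have hzm : z ∈ A.filter (fun x => ¬ x ≤ Q) := Finset.mem_filter.mpr ⟨hz, hzQ⟩
  rw [← Finset.add_sum_erase _ _ hzm]
  apply Nat.add_le_add
  · refine (Finset.card_filter_le _ _).trans ?_
    refine (Finset.card_filter_le _ _).trans ?_
    rw [Finset.card_product, sq]
  · have h2 : ∀ x ∈ (A.filter (fun x => ¬ x ≤ Q)).erase z,
        ((Pz A Q o k z).filter (fun p => x ≤ z ⊔ p.1 ⊔ p.2)).card ≤ (pts A Q).card * k := by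
      intro x hx
      obtain ⟨hxz, hx2⟩ := Finset.mem_erase.mp hx
      obtain ⟨hxA, hxQ⟩ := Finset.mem_filter.mp hx2
      refine card_pairs hA hz hzQ hxA hxQ hxz hk1 _ ?_
      intro p hp
      obtain ⟨h3, h4⟩ := Finset.mem_filter.mp hp
      obtain ⟨g1, g2, g3, g4, -⟩ := mem_Pz.mp h3
      exact ⟨g1, g2, g3, h4, g4⟩
    refine (Finset.sum_le_sum h2).trans ?_
    rw [Finset.sum_const, smul_eq_mul]
    apply Nat.mul_le_mul_right
    exact (Finset.card_le_card (Finset.erase_subset _ _)).trans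
      (Finset.card_le_card (Finset.filter_subset _ _))

/-- The weight of a triple. -/
noncomputable def wt (A : Finset L) (Q : L) (c0 m : ℝ) (v : L × L × L) : ℝ :=
  (c0 * (((off A Q (v.1 ⊔ v.2.1 ⊔ v.2.2)).card : ℝ) + m))⁻¹

/-- The triples. -/
noncomputable def V0 (A : Finset L) (Q o : L) (k : ℕ) : Finset (L × L × L) :=
  (A ×ˢ (pts A Q ×ˢ pts A Q)).filter (fun v => ¬ v.1 ≤ Q ∧ v.1 ≠ o ∧ v.2 ∈ Pz A Q o k v.1)

theorem mem_V0 {A : Finset L} {Q o : L} {k : ℕ} {v : L × L × L} :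
    v ∈ V0 A Q o k ↔ v.1 ∈ A ∧ ¬ v.1 ≤ Q ∧ v.1 ≠ o ∧ v.2 ∈ Pz A Q o k v.1 := by
  simp only [V0, Finset.mem_filter, Finset.mem_product]
  constructor
  · rintro ⟨⟨h1, -⟩, h2, h3, h4⟩
    exact ⟨h1, h2, h3, h4⟩
  · rintro ⟨h1, h2, h3, h4⟩
    have h5 := mem_Pz.mp h4
    exact ⟨⟨h1, h5.1, h5.2.1⟩, h2, h3, h4⟩

theorem plane_load {A : Finset L} (hA : ∀ a ∈ A, IsAtom a) {Q o : L} {k : ℕ} {c0 m : ℝ}
    (hc0 : 0 < c0) (hm : 0 < m) {v : L × L × L} (hv : v ∈ V0 A Q o k) :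
    ld (V0 A Q o k) (wt A Q c0 m) (v.1 ⊔ v.2.1 ⊔ v.2.2) ≤ (k : ℝ) ^ 2 / c0 := by
  obtain ⟨hz, hzQ, hzo, hp⟩ := mem_V0.mp hv
  obtain ⟨g1, g2, g3, g4, g5⟩ := mem_Pz.mp hp
  rw [mem_pts] at g1 g2
  set H := v.1 ⊔ v.2.1 ⊔ v.2.2 with hH
  have hrH : rk H = 3 := rk_tri (hA _ hz) hzQ (hA _ g1.1) g1.2 (hA _ g2.1) g2.2 g3
  have key : ∀ u ∈ (V0 A Q o k).filter (fun u => Uses u H),
      u.1 ⊔ u.2.1 ⊔ u.2.2 = H ∧
        u ∈ off A Q H ×ˢ (pts A (v.2.1 ⊔ v.2.2) ×ˢ pts A (v.2.1 ⊔ v.2.2)) := by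
    intro u hu
    obtain ⟨hu1, hu2⟩ := Finset.mem_filter.mp hu
    obtain ⟨hx, hxQ, hxo, hp'⟩ := mem_V0.mp hu1
    obtain ⟨k1, k2, k3, k4, k5⟩ := mem_Pz.mp hp'
    rw [mem_pts] at k1 k2
    have e : H = u.1 ⊔ u.2.1 ⊔ u.2.2 := by
      rcases hu2 with h | h | h
      · exfalso
        rw [h, rk_two (hA _ hx) hxQ (hA _ k1.1) k1.2] at hrH
        omega
      · exfalso
        rw [h, rk_two (hA _ hx) hxQ (hA _ k2.1) k2.2] at hrH
        omega
      · exact h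
    refine ⟨e.symm, ?_⟩
    have hb : ∀ r, IsAtom r → r ≤ Q → r ≤ H → r ≤ v.2.1 ⊔ v.2.2 := by
      intro r hr hrQ hrH'
      refine cone_inf (hA _ hz) hzQ (sup_le g1.2 g2.2) hr hrQ ?_
      rw [← sup_assoc]
      exact hrH'
    rw [Finset.mem_product, Finset.mem_product, mem_off, mem_pts, mem_pts]
    refine ⟨⟨hx, ?_, hxQ⟩, ⟨k1.1, hb _ (hA _ k1.1) k1.2 ?_⟩, ⟨k2.1, hb _ (hA _ k2.1) k2.2 ?_⟩⟩
    · rw [e]; exact le_sup_left.trans le_sup_left
    · rw [e]; exact le_sup_right.trans le_sup_left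
    · rw [e]; exact le_sup_right
  set a : ℝ := ((off A Q H).card : ℝ) with ha
  have ha0 : 0 ≤ a := Nat.cast_nonneg _
  have h1 : ld (V0 A Q o k) (wt A Q c0 m) H =
      ∑ u ∈ (V0 A Q o k).filter (fun u => Uses u H), (c0 * (a + m))⁻¹ := by
    unfold ld
    refine Finset.sum_congr rfl fun u hu => ?_
    unfold wt
    rw [(key u hu).1]
  rw [h1, Finset.sum_const, nsmul_eq_mul]
  have h2 : (((V0 A Q o k).filter (fun u => Uses u H)).card : ℝ) ≤ a * ((k : ℝ) * k) := by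
    have h3 : ((V0 A Q o k).filter (fun u => Uses u H)).card ≤ (off A Q H).card * (k * k) := by
      refine (Finset.card_le_card (fun u hu => (key u hu).2)).trans ?_
      rw [Finset.card_product, Finset.card_product]
      exact Nat.mul_le_mul_left _ (Nat.mul_le_mul g4 g4)
    rw [ha]
    exact_mod_cast h3
  have h4 : 0 < c0 * (a + m) := mul_pos hc0 (by linarith)
  calc _ ≤ a * ((k : ℝ) * k) * (c0 * (a + m))⁻¹ :=
        mul_le_mul_of_nonneg_right h2 (inv_pos.mpr h4).le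
    _ ≤ (k : ℝ) ^ 2 / c0 := by
      rw [← div_eq_mul_inv, div_le_div_iff₀ h4 hc0]
      have : 0 ≤ (k : ℝ) ^ 2 * c0 * m := by positivity
      nlinarith

theorem line_load {A : Finset L} (hA : ∀ a ∈ A, IsAtom a) {Q o z q : L} {s k : ℕ} {c0 m : ℝ}
    (hc0 : 0 < c0) (hm : 0 < m) (hs : ∀ g, rk g = 2 → (pts A g).card ≤ s)
    (hz : z ∈ A) (hzQ : ¬ z ≤ Q) (hq : q ∈ A) (hqQ : q ≤ Q) :
    ld (V0 A Q o k) (wt A Q c0 m) (z ⊔ q) ≤ 2 * s * (pts A Q).card / (c0 * m) := by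
  set g := z ⊔ q with hg
  have hrg : rk g = 2 := rk_two (hA _ hz) hzQ (hA _ hq) hqQ
  let E1 : Finset (L × L × L) := (pts A g ×ˢ pts A Q).image (fun t => (t.1, q, t.2))
  let E2 : Finset (L × L × L) := (pts A g ×ˢ pts A Q).image (fun t => (t.1, t.2, q))
  have hb : ∀ r, IsAtom r → r ≤ Q → r ≤ g → r = q := by
    intro r hr hrQ hrg'
    have h1 := cone_inf (hA _ hz) hzQ hqQ hr hrQ hrg'
    exact eq_of_le_of_rk h1 (by rw [rk_atom hr, rk_atom (hA _ hq)])
  have key : (V0 A Q o k).filter (fun u => Uses u g) ⊆ E1 ∪ E2 := by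
    intro u hu
    obtain ⟨hu1, hu2⟩ := Finset.mem_filter.mp hu
    obtain ⟨hx, hxQ, hxo, hp'⟩ := mem_V0.mp hu1
    obtain ⟨k1, k2, k3, k4, k5⟩ := mem_Pz.mp hp'
    have k1' := mem_pts.mp k1
    have k2' := mem_pts.mp k2
    rw [Finset.mem_union, Finset.mem_image, Finset.mem_image]
    rcases hu2 with h | h | h
    · left
      have e1 : u.2.1 = q := hb _ (hA _ k1'.1) k1'.2 (by rw [h]; exact le_sup_right)
      refine ⟨(u.1, u.2.2), ?_, ?_⟩
      · rw [Finset.mem_product]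
        exact ⟨mem_pts.mpr ⟨hx, by rw [h]; exact le_sup_left⟩, k2⟩
      · rw [← e1]
    · right
      have e1 : u.2.2 = q := hb _ (hA _ k2'.1) k2'.2 (by rw [h]; exact le_sup_right)
      refine ⟨(u.1, u.2.1), ?_, ?_⟩
      · rw [Finset.mem_product]
        exact ⟨mem_pts.mpr ⟨hx, by rw [h]; exact le_sup_left⟩, k1⟩
      · rw [← e1]
    · exfalso
      have := rk_tri (hA _ hx) hxQ (hA _ k1'.1) k1'.2 (hA _ k2'.1) k2'.2 k3
      rw [← h, hrg] at this
      omega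
  have hcard : ((V0 A Q o k).filter (fun u => Uses u g)).card ≤ 2 * (s * (pts A Q).card) := by
    refine (Finset.card_le_card key).trans ((Finset.card_union_le _ _).trans ?_)
    have e1 : E1.card ≤ s * (pts A Q).card := by
      refine Finset.card_image_le.trans ?_
      rw [Finset.card_product]
      exact Nat.mul_le_mul_right _ (hs g hrg)
    have e2 : E2.card ≤ s * (pts A Q).card := by
      refine Finset.card_image_le.trans ?_
      rw [Finset.card_product]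
      exact Nat.mul_le_mul_right _ (hs g hrg)
    omega
  have hw : ∀ u ∈ (V0 A Q o k).filter (fun u => Uses u g), wt A Q c0 m u ≤ (c0 * m)⁻¹ := by
    intro u _
    unfold wt
    apply inv_anti₀ (mul_pos hc0 hm)
    apply mul_le_mul_of_nonneg_left _ hc0.le
    have : (0 : ℝ) ≤ ((off A Q (u.1 ⊔ u.2.1 ⊔ u.2.2)).card : ℝ) := Nat.cast_nonneg _
    linarith
  unfold ld
  refine (Finset.sum_le_sum hw).trans ?_
  rw [Finset.sum_const, nsmul_eq_mul, div_eq_mul_inv]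
  apply mul_le_mul_of_nonneg_right _ (inv_pos.mpr (mul_pos hc0 hm)).le
  have : (((V0 A Q o k).filter (fun u => Uses u g)).card : ℝ) ≤
      ((2 * (s * (pts A Q).card) : ℕ) : ℝ) := by exact_mod_cast hcard
  push_cast at this
  linarith

/-- **Rank four data over a large plane**, with parameters. -/
theorem crit4_param {A : Finset L} (hA : ∀ a ∈ A, IsAtom a) (hr : rk (A.sup id) = 4) {Q : L}
    (hQ : rk Q = 3) {s k : ℕ} (hs : ∀ g, rk g = 2 → (pts A g).card ≤ s) (hs1 : 1 ≤ s)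
    (hk1 : 1 ≤ k) (hsN : s < (pts A Q).card) {c m c0 P0 : ℝ} (hc : 1 < c) (hm : 0 < m)
    (hc0 : 0 < c0) (hk : c * ((pts A Q).card : ℝ) ≤ ((k : ℝ) + 1) ^ 2)
    (h2 : (k : ℝ) ^ 2 + 4 * s * (pts A Q).card / m ≤ c0) (hP0 : 0 ≤ P0)
    (h3 : P0 + (pts A Q).card + s * (pts A Q).card + s * (c / (c - 1) * (pts A Q).card) ≤
      ((pts A Q).card : ℝ) ^ 2)
    (h4 : c0 * (((pts A Q).card : ℝ) ^ 2 + A.card * ((pts A Q).card * k) +
      m * ((pts A Q).card : ℝ) ^ 2) ≤ P0 ^ 2) : Crit4 A := by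
  -- the point `o`
  obtain ⟨o, ho, hoQ⟩ : ∃ o ∈ A, ¬ o ≤ Q := by
    by_contra hcon
    push Not at hcon
    have h1 : A.sup id ≤ Q := Finset.sup_le hcon
    have h2 := rk_mono h1
    omega
  -- the rank of the points of `Q`
  have hle : (pts A Q).sup id ≤ Q := Finset.sup_le fun x hx => (mem_pts.mp hx).2
  have hrQ : rk ((pts A Q).sup id) = 3 := by
    have h5 := rk_mono hle
    by_contra hne
    have h6 : rk ((pts A Q).sup id) ≤ 2 := by omega
    -- a line over the points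
    have h7 : ∃ g, rk g = 2 ∧ (pts A Q).sup id ≤ g := by
      have h8 : ∃ q ∈ pts A Q, ∃ r ∈ pts A Q, q ≠ r := by
        have : 1 < (pts A Q).card := by omega
        obtain ⟨q, hq, r, hr, hqr⟩ := Finset.one_lt_card.mp this
        exact ⟨q, hq, r, hr, hqr⟩
      obtain ⟨q, hq, r, hr', hqr⟩ := h8
      have h9 : rk (q ⊔ r) = 2 :=
        rk_line (hA _ (mem_pts.mp hq).1) (hA _ (mem_pts.mp hr').1) hqr
      refine ⟨(pts A Q).sup id, ?_, le_rfl⟩
      have h10 : q ⊔ r ≤ (pts A Q).sup id :=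
        sup_le (Finset.le_sup (f := id) hq) (Finset.le_sup (f := id) hr')
      have := rk_mono h10
      omega
    obtain ⟨g, hg, hg2⟩ := h7
    have h8 : pts A Q ⊆ pts A g := by
      intro x hx
      exact mem_pts.mpr ⟨(mem_pts.mp hx).1, (Finset.le_sup (f := id) hx).trans hg2⟩
    have := Finset.card_le_card h8
    have := hs g hg
    omega
  have hB4 : Crit4 (insert o (pts A Q)) := by
    have h5 := crit4_base (A := A) hA hQ ho hoQ
      (Pool.Agent.Helper80.BP.crit3_all (A.filter (· ≤ Q)) (fun a ha => hA a (Finset.mem_filter.mp ha).1) hrQ)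
    exact h5
  set N : ℝ := ((pts A Q).card : ℝ) with hN
  have hN1 : 1 ≤ N := by
    rw [hN]
    exact_mod_cast (by omega : 1 ≤ (pts A Q).card)
  have hBm : ∀ a, a ∈ insert o (pts A Q) → a = o ∨ (a ∈ A ∧ a ≤ Q) := by
    intro a ha
    rcases Finset.mem_insert.mp ha with h | h
    · exact Or.inl h
    · exact Or.inr (mem_pts.mp h)
  have hnB : ∀ x ∈ A, x ∉ insert o (pts A Q) → ¬ x ≤ Q ∧ x ≠ o := by
    intro x hx h
    rw [Finset.mem_insert, mem_pts] at h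
    push Not at h
    exact ⟨h.2 hx, h.1⟩
  have hw0 : ∀ v, 0 ≤ wt A Q c0 m v := by
    intro v
    unfold wt
    positivity
  refine crit4_of_pairs (A := A) (B := insert o (pts A Q)) (V0 := V0 A Q o k)
    (w := wt A Q c0 m) hA ?_ hB4 hw0 ?_ ?_ ?_ ?_ ?_ ?_
  · intro a ha
    rcases hBm a ha with rfl | h
    · exact ho
    · exact h.1
  · intro v hv
    obtain ⟨hz, hzQ, hzo, hp⟩ := mem_V0.mp hv
    obtain ⟨g1, g2, g3, g4, g5⟩ := mem_Pz.mp hp
    rw [mem_pts] at g1 g2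
    refine ⟨hz, ?_, g1.1, g2.1, rk_tri (hA _ hz) hzQ (hA _ g1.1) g1.2 (hA _ g2.1) g2.2 g3⟩
    intro h
    rcases hBm _ h with h | h
    · exact hzo h
    · exact hzQ h.2
  · intro v hv a ha e he hae h5 h6
    obtain ⟨hz, hzQ, hzo, hp⟩ := mem_V0.mp hv
    obtain ⟨g1, g2, g3, g4, g5⟩ := mem_Pz.mp hp
    rw [mem_pts] at g1 g2
    have hb : ∀ r, (r = o ∨ (r ∈ A ∧ r ≤ Q)) → r ≤ v.1 ⊔ v.2.1 → r = v.2.1 := by
      rintro r (rfl | ⟨h7, h8⟩) h9
      · exact absurd (h9.trans le_sup_left) g5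
      · have h10 := cone_inf (hA _ hz) hzQ g1.2 (hA _ h7) h8 h9
        exact eq_of_le_of_rk h10 (by rw [rk_atom (hA _ h7), rk_atom (hA _ g1.1)])
    exact hae ((hb a (hBm a ha) h5).trans (hb e (hBm e he) h6).symm)
  · intro v hv a ha e he hae h5 h6
    obtain ⟨hz, hzQ, hzo, hp⟩ := mem_V0.mp hv
    obtain ⟨g1, g2, g3, g4, g5⟩ := mem_Pz.mp hp
    rw [mem_pts] at g1 g2
    have hb : ∀ r, (r = o ∨ (r ∈ A ∧ r ≤ Q)) → r ≤ v.1 ⊔ v.2.2 → r = v.2.2 := by
      rintro r (rfl | ⟨h7, h8⟩) h9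
      · exact absurd (h9.trans (sup_le (le_sup_left.trans le_sup_left) le_sup_right)) g5
      · have h10 := cone_inf (hA _ hz) hzQ g2.2 (hA _ h7) h8 h9
        exact eq_of_le_of_rk h10 (by rw [rk_atom (hA _ h7), rk_atom (hA _ g2.1)])
    exact hae ((hb a (hBm a ha) h5).trans (hb e (hBm e he) h6).symm)
  · intro v hv a ha e he t ht h5 h6 h7 h8
    obtain ⟨hz, hzQ, hzo, hp⟩ := mem_V0.mp hv
    obtain ⟨g1, g2, g3, g4, g5⟩ := mem_Pz.mp hp
    rw [mem_pts] at g1 g2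
    have hb : ∀ r, (r = o ∨ (r ∈ A ∧ r ≤ Q)) → r ≤ v.1 ⊔ v.2.1 ⊔ v.2.2 →
        r ≤ v.2.1 ⊔ v.2.2 := by
      rintro r (rfl | ⟨h7, h8⟩) h9
      · exact absurd h9 g5
      · refine cone_inf (hA _ hz) hzQ (sup_le g1.2 g2.2) (hA _ h7) h8 ?_
        rw [← sup_assoc]
        exact h9
    have h9 : a ⊔ e ⊔ t ≤ v.2.1 ⊔ v.2.2 :=
      sup_le (sup_le (hb a (hBm a ha) h6) (hb e (hBm e he) h7)) (hb t (hBm t ht) h8)
    have h10 := rk_mono h9
    rw [h5, rk_line (hA _ g1.1) (hA _ g2.1) g3] at h10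
    omega
  · intro z hz hzB
    obtain ⟨hzQ, hzo⟩ := hnB z hz hzB
    have e1 : ∑ p ∈ Pz A Q o k z, wt A Q c0 m (z, p) ≤
        ∑ v ∈ (V0 A Q o k).filter (fun v => v.1 = z), wt A Q c0 m v := by
      rw [← Finset.sum_image (f := fun v => wt A Q c0 m v)
        (g := fun p : L × L => (z, p)) (s := Pz A Q o k z)
        (fun p _ p' _ h => (Prod.ext_iff.mp h).2)]
      refine Finset.sum_le_sum_of_subset_of_nonneg ?_ (fun v _ _ => hw0 v)
      intro v hv
      obtain ⟨p, hp, rfl⟩ := Finset.mem_image.mp hv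
      rw [Finset.mem_filter]
      exact ⟨mem_V0.mpr ⟨hz, hzQ, hzo, hp⟩, rfl⟩
    refine le_trans ?_ e1
    have e2 := card_Pz hA ho hoQ hz hzQ hzo hs1 hs hc hk
    have e3 : P0 ≤ ((Pz A Q o k z).card : ℝ) := by linarith
    have e4 := sum_off (o := o) hA hz hzQ hk1
    have hpos : ∀ p ∈ Pz A Q o k z,
        0 < c0 * (((off A Q (z ⊔ p.1 ⊔ p.2)).card : ℝ) + m) := by
      intro p _
      positivity
    have e5 := Finset.sq_sum_div_le_sum_sq_div (Pz A Q o k z) (fun _ => (1 : ℝ)) hpos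
    have e6 : ∑ p ∈ Pz A Q o k z, (1 : ℝ) ^ 2 / (c0 * (((off A Q (z ⊔ p.1 ⊔ p.2)).card : ℝ) + m)) =
        ∑ p ∈ Pz A Q o k z, wt A Q c0 m (z, p) := by
      refine Finset.sum_congr rfl fun p _ => ?_
      unfold wt
      rw [one_pow, one_div]
    rw [e6] at e5
    refine le_trans ?_ e5
    have e7 : ∑ p ∈ Pz A Q o k z, (1 : ℝ) = ((Pz A Q o k z).card : ℝ) := by simp
    rw [e7]
    have e8 : ∑ p ∈ Pz A Q o k z, c0 * (((off A Q (z ⊔ p.1 ⊔ p.2)).card : ℝ) + m) =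
        c0 * (((∑ p ∈ Pz A Q o k z, (off A Q (z ⊔ p.1 ⊔ p.2)).card : ℕ) : ℝ) +
          m * (Pz A Q o k z).card) := by
      rw [← Finset.mul_sum, Finset.sum_add_distrib, Finset.sum_const, nsmul_eq_mul]
      push_cast
      ring
    rw [e8]
    have e9 : ((∑ p ∈ Pz A Q o k z, (off A Q (z ⊔ p.1 ⊔ p.2)).card : ℕ) : ℝ) ≤
        N ^ 2 + A.card * (N * k) := by
      have : ((∑ p ∈ Pz A Q o k z, (off A Q (z ⊔ p.1 ⊔ p.2)).card : ℕ) : ℝ) ≤
          (((pts A Q).card ^ 2 + A.card * ((pts A Q).card * k) : ℕ) : ℝ) := by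
        exact_mod_cast e4
      rw [hN]
      refine this.trans (le_of_eq ?_)
      push_cast
      ring
    have e10 : ((Pz A Q o k z).card : ℝ) ≤ N ^ 2 := by
      have h5 : (Pz A Q o k z).card ≤ (pts A Q).card ^ 2 := by
        refine (Finset.card_filter_le _ _).trans ?_
        rw [Finset.card_product, sq]
      rw [hN]
      exact_mod_cast h5
    have hkR : (1 : ℝ) ≤ k := by exact_mod_cast hk1
    have e11 : 0 < c0 * (N ^ 2 + A.card * (N * k) + m * N ^ 2) := by positivity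
    have e12 : 0 < P0 := by
      rcases hP0.eq_or_lt with h | h
      · rw [← h] at h4
        norm_num at h4
        linarith
      · exact h
    have e13 : 0 < ((Pz A Q o k z).card : ℝ) := lt_of_lt_of_le e12 e3
    rw [le_div_iff₀ (mul_pos hc0 (add_pos_of_nonneg_of_pos (Nat.cast_nonneg _)
      (mul_pos hm e13))), one_mul]
    calc c0 * (((∑ p ∈ Pz A Q o k z, (off A Q (z ⊔ p.1 ⊔ p.2)).card : ℕ) : ℝ) +
          m * (Pz A Q o k z).card)
        ≤ c0 * (N ^ 2 + A.card * (N * k) + m * N ^ 2) := by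
          apply mul_le_mul_of_nonneg_left _ hc0.le
          have := mul_le_mul_of_nonneg_left e10 hm.le
          linarith
      _ ≤ P0 ^ 2 := h4
      _ ≤ _ := pow_le_pow_left₀ hP0 e3 2
  · intro v hv _
    obtain ⟨hz, hzQ, hzo, hp⟩ := mem_V0.mp hv
    obtain ⟨g1, g2, g3, g4, g5⟩ := mem_Pz.mp hp
    rw [mem_pts] at g1 g2
    have l1 := line_load (o := o) (k := k) hA hc0 hm hs hz hzQ g1.1 g1.2
    have l2 := line_load (o := o) (k := k) hA hc0 hm hs hz hzQ g2.1 g2.2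
    have l3 := plane_load hA hc0 hm hv
    have e1 : 2 * (s : ℝ) * (pts A Q).card / (c0 * m) + 2 * s * (pts A Q).card / (c0 * m) +
        (k : ℝ) ^ 2 / c0 ≤ 1 := by
      have e2 : 2 * (s : ℝ) * (pts A Q).card / (c0 * m) + 2 * s * (pts A Q).card / (c0 * m) +
          (k : ℝ) ^ 2 / c0 = ((k : ℝ) ^ 2 + 4 * s * (pts A Q).card / m) / c0 := by
        field_simp
        ring
      rw [e2, div_le_one hc0]
      exact h2
    linarith

end Pool.Agent.Helper26.PC
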