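import Pool.Agent.Helper26.PC.Main

/-!
# Rank four data over a large plane: no condition on the lines off the plane
-/

set_option autoImplicit false
set_option linter.unusedSectionVars false

namespace Pool.Agent.Helper26.PC

open Finset Pool.Agent.Helper28.BPack Pool.Agent.Helper61.Motz Pool.Agent.Helper63.HM
  Pool.Agent.Helper80.LP
open scoped Classical

variable {L : Type} [Lattice L] [BoundedOrder L] [Finite L] [IsUpperModularLattice L]

/-- The pairs of points of `Q` on long lines. -/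
theorem card_long' {A : Finset L} (hA : ∀ a ∈ A, IsAtom a) {Q : L} {s k : ℕ}
    (hs : ∀ g, g ≤ Q → rk g = 2 → (pts A g).card ≤ s) {c : ℝ} (hc : 1 < c)
    (hk : c * ((pts A Q).card : ℝ) ≤ ((k : ℝ) + 1) ^ 2) (B : Finset (L × L))
    (hB : ∀ p ∈ B, p.1 ∈ pts A Q ∧ p.2 ∈ pts A Q ∧ p.1 ≠ p.2 ∧
      ¬ (pts A (p.1 ⊔ p.2)).card ≤ k) :
    (c - 1) * (B.card : ℝ) ≤ s * (c * ((pts A Q).card : ℝ)) := by
  let T : Finset L := B.image (fun p => p.1 ⊔ p.2)
  have hT : ∀ l ∈ T, ∃ p ∈ B, p.1 ⊔ p.2 = l := fun l hl => Finset.mem_image.mp hl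
  have hTr : ∀ l ∈ T, rk l = 2 ∧ l ≤ Q ∧ k + 1 ≤ (pts A l).card := by
    intro l hl
    obtain ⟨p, hp, rfl⟩ := hT l hl
    obtain ⟨h1, h2, h3, h4⟩ := hB p hp
    exact ⟨rk_line (hA _ (mem_pts.mp h1).1) (hA _ (mem_pts.mp h2).1) h3,
      sup_le (mem_pts.mp h1).2 (mem_pts.mp h2).2, by omega⟩
  have hI : ∀ l ∈ T, pts A l ⊆ pts A Q := by
    intro l hl x hx
    rw [mem_pts] at hx ⊢
    exact ⟨hx.1, hx.2.trans (hTr l hl).2.1⟩
  have h1 : ∀ l ∈ T, ∀ l' ∈ T, l ≠ l' → (pts A l ∩ pts A l').card ≤ 1 := by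
    intro l hl l' hl' hne
    rw [Finset.card_le_one]
    intro x hx y hy
    by_contra hxy
    rw [Finset.mem_inter, mem_pts, mem_pts] at hx hy
    have hxa := hA x hx.1.1
    have hya := hA y hy.1.1
    apply hne
    have e1 : x ⊔ y = l := eq_of_le_of_rk (sup_le hx.1.2 hy.1.2)
      (by rw [rk_line hxa hya hxy, (hTr l hl).1])
    have e2 : x ⊔ y = l' := eq_of_le_of_rk (sup_le hx.2.2 hy.2.2)
      (by rw [rk_line hxa hya hxy, (hTr l' hl').1])
    rw [← e1, e2]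
  have h2 := sum_card_le (pts A Q) T (fun l => pts A l) c hc hI h1 (by
    intro l hl
    refine hk.trans ?_
    have h3 : ((k : ℝ) + 1) ≤ ((pts A l).card : ℝ) := by exact_mod_cast (hTr l hl).2.2
    exact pow_le_pow_left₀ (by positivity) h3 2)
  have h3 : B ⊆ T.biUnion (fun l => pts A l ×ˢ pts A l) := by
    intro p hp
    obtain ⟨g1, g2, g3, g4⟩ := hB p hp
    rw [Finset.mem_biUnion]
    refine ⟨p.1 ⊔ p.2, Finset.mem_image.mpr ⟨p, hp, rfl⟩, ?_⟩
    rw [Finset.mem_product, mem_pts, mem_pts]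
    exact ⟨⟨(mem_pts.mp g1).1, le_sup_left⟩, ⟨(mem_pts.mp g2).1, le_sup_right⟩⟩
  have h4 : (B.card : ℝ) ≤ s * ∑ l ∈ T, ((pts A l).card : ℝ) := by
    have h5 : B.card ≤ ∑ l ∈ T, s * (pts A l).card := by
      refine (Finset.card_le_card h3).trans (Finset.card_biUnion_le.trans ?_)
      refine Finset.sum_le_sum fun l hl => ?_
      rw [Finset.card_product]
      exact Nat.mul_le_mul_right _ (hs l (hTr l hl).2.1 (hTr l hl).1)
    rw [← Finset.mul_sum] at h5
    exact_mod_cast h5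
  have hs0 : (0 : ℝ) ≤ s := Nat.cast_nonneg _
  calc (c - 1) * (B.card : ℝ) ≤ (c - 1) * (s * ∑ l ∈ T, ((pts A l).card : ℝ)) :=
        mul_le_mul_of_nonneg_left h4 (by linarith)
    _ = s * ((c - 1) * ∑ l ∈ T, ((pts A l).card : ℝ)) := by ring
    _ ≤ _ := mul_le_mul_of_nonneg_left h2 hs0

/-- Few points of `Q` are on a line of more than `t` points with `z`. -/
theorem card_bad {A : Finset L} (hA : ∀ a ∈ A, IsAtom a) {Q z : L} (hz : z ∈ A)
    (hzQ : ¬ z ≤ Q) {t : ℕ} (ht : 1 ≤ t) :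
    ((pts A Q).filter (fun q => ¬ (pts A (z ⊔ q)).card ≤ t)).card * (t - 1) ≤ A.card := by
  set B := (pts A Q).filter (fun q => ¬ (pts A (z ⊔ q)).card ≤ t) with hB
  let E : L → Finset L := fun q => ((pts A (z ⊔ q)).erase z).erase q
  have hE : ∀ q ∈ B, t - 1 ≤ (E q).card := by
    intro q hq
    have h1 := (Finset.mem_filter.mp hq).2
    have h2 := Finset.pred_card_le_card_erase (s := pts A (z ⊔ q)) (a := z)
    have h3 := Finset.pred_card_le_card_erase (s := (pts A (z ⊔ q)).erase z) (a := q)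
    have h4 : (E q).card = (((pts A (z ⊔ q)).erase z).erase q).card := rfl
    omega
  have hdis : ∀ q ∈ B, ∀ r ∈ B, q ≠ r → Disjoint (E q) (E r) := by
    intro q hq r hr hqr
    rw [Finset.disjoint_left]
    intro x hx hx'
    have h1 := (Finset.mem_filter.mp hq).1
    have h2 := (Finset.mem_filter.mp hr).1
    have hqa := hA q (mem_pts.mp h1).1
    have hra := hA r (mem_pts.mp h2).1
    have hza := hA z hz
    have g1 := Finset.mem_erase.mp hx
    have g2 := Finset.mem_erase.mp g1.2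
    have g3 := mem_pts.mp g2.2
    have g1' := Finset.mem_erase.mp hx'
    have g2' := Finset.mem_erase.mp g1'.2
    have g3' := mem_pts.mp g2'.2
    have hxa := hA x g3.1
    have e1 : z ⊔ x = z ⊔ q := by
      refine eq_of_le_of_rk (sup_le le_sup_left g3.2) ?_
      rw [rk_two hza hzQ hqa (mem_pts.mp h1).2, rk_line hza hxa (Ne.symm g2.1)]
    have e2 : z ⊔ x = z ⊔ r := by
      refine eq_of_le_of_rk (sup_le le_sup_left g3'.2) ?_
      rw [rk_two hza hzQ hra (mem_pts.mp h2).2, rk_line hza hxa (Ne.symm g2.1)]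
    have e3 : q ≤ z ⊔ r := by
      rw [← e2, e1]
      exact le_sup_right
    have e4 := cone_inf hza hzQ (mem_pts.mp h2).2 hqa (mem_pts.mp h1).2 e3
    exact hqr (eq_of_le_of_rk e4 (by rw [rk_atom hqa, rk_atom hra]))
  have h1 : (B.biUnion E).card = ∑ q ∈ B, (E q).card := Finset.card_biUnion hdis
  have h2 : B.biUnion E ⊆ A := by
    intro x hx
    obtain ⟨q, _, h3⟩ := Finset.mem_biUnion.mp hx
    exact (mem_pts.mp (Finset.mem_erase.mp (Finset.mem_erase.mp h3).2).2).1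
  calc B.card * (t - 1) = ∑ _q ∈ B, (t - 1) := by rw [Finset.sum_const, smul_eq_mul]
    _ ≤ ∑ q ∈ B, (E q).card := Finset.sum_le_sum hE
    _ = (B.biUnion E).card := h1.symm
    _ ≤ A.card := Finset.card_le_card h2

/-- The allowed pairs of a user `z`. -/
noncomputable def Pt (A : Finset L) (Q o : L) (k t : ℕ) (z : L) : Finset (L × L) :=
  (Pz A Q o k z).filter (fun p => (pts A (z ⊔ p.1)).card ≤ t ∧ (pts A (z ⊔ p.2)).card ≤ t)

/-- The number of allowed pairs. -/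
theorem card_Pt {A : Finset L} (hA : ∀ a ∈ A, IsAtom a) {Q o z : L} (ho : o ∈ A) (hoQ : ¬ o ≤ Q)
    (hz : z ∈ A) (hzQ : ¬ z ≤ Q) (hzo : z ≠ o) {s k t : ℕ} (hk1 : 1 ≤ k) (ht : 2 ≤ t)
    (hs : ∀ g, g ≤ Q → rk g = 2 → (pts A g).card ≤ s) {c : ℝ} (hc : 1 < c)
    (hk : c * ((pts A Q).card : ℝ) ≤ ((k : ℝ) + 1) ^ 2) :
    ((pts A Q).card : ℝ) ^ 2 ≤ (Pt A Q o k t z).card + (pts A Q).card + k * (pts A Q).card +
      s * (c / (c - 1) * (pts A Q).card) + 2 * (pts A Q).card * A.card / ((t : ℝ) - 1) := by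
  let B1 : Finset (L × L) := (pts A Q ×ˢ pts A Q).filter (fun p => p.1 ≠ p.2 ∧
    (pts A (p.1 ⊔ p.2)).card ≤ k ∧ o ≤ z ⊔ p.1 ⊔ p.2)
  let B2 : Finset (L × L) := (pts A Q ×ˢ pts A Q).filter (fun p => p.1 ≠ p.2 ∧
    ¬ (pts A (p.1 ⊔ p.2)).card ≤ k)
  let D : Finset (L × L) := (pts A Q).image (fun q => (q, q))
  let b : Finset L := (pts A Q).filter (fun q => ¬ (pts A (z ⊔ q)).card ≤ t)
  have hsub : pts A Q ×ˢ pts A Q ⊆
      Pt A Q o k t z ∪ D ∪ B1 ∪ B2 ∪ (b ×ˢ pts A Q) ∪ (pts A Q ×ˢ b) := by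
    intro p hp
    have hp' := Finset.mem_product.mp hp
    simp only [Finset.mem_union, Pt, mem_Pz, D, B1, B2, b, Finset.mem_filter, Finset.mem_product,
      Finset.mem_image]
    by_cases h1 : p.1 = p.2
    · left; left; left; left; right
      exact ⟨p.1, hp'.1, Prod.ext rfl h1⟩
    · by_cases h3 : (pts A (p.1 ⊔ p.2)).card ≤ k
      · by_cases h2 : o ≤ z ⊔ p.1 ⊔ p.2
        · left; left; left; right
          exact ⟨hp', h1, h3, h2⟩
        · by_cases h4 : (pts A (z ⊔ p.1)).card ≤ t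
          · by_cases h5 : (pts A (z ⊔ p.2)).card ≤ t
            · left; left; left; left; left
              exact ⟨⟨hp'.1, hp'.2, h1, h3, h2⟩, h4, h5⟩
            · right
              exact ⟨hp'.1, hp'.2, h5⟩
          · left; right
            exact ⟨⟨hp'.1, h4⟩, hp'.2⟩
      · left; left; right
        exact ⟨hp', h1, h3⟩
  have hcard : (pts A Q).card * (pts A Q).card ≤ (Pt A Q o k t z).card + D.card + B1.card +
      B2.card + b.card * (pts A Q).card + (pts A Q).card * b.card := by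
    rw [← Finset.card_product, ← Finset.card_product b, ← Finset.card_product _ b]
    refine (Finset.card_le_card hsub).trans ?_
    refine (Finset.card_union_le _ _).trans ?_
    have := Finset.card_union_le (Pt A Q o k t z ∪ D ∪ B1 ∪ B2) (b ×ˢ pts A Q)
    have := Finset.card_union_le (Pt A Q o k t z ∪ D ∪ B1) B2
    have := Finset.card_union_le (Pt A Q o k t z ∪ D) B1
    have := Finset.card_union_le (Pt A Q o k t z) D
    omega
  have hD : D.card ≤ (pts A Q).card := Finset.card_image_le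
  have hB1 : B1.card ≤ (pts A Q).card * k := by
    refine card_pairs hA hz hzQ ho hoQ (Ne.symm hzo) hk1 B1 ?_
    intro p hp
    obtain ⟨h1, h2, h3, h4⟩ := Finset.mem_filter.mp hp
    rw [Finset.mem_product] at h1
    exact ⟨h1.1, h1.2, h2, h4, h3⟩
  have hB2 : (c - 1) * (B2.card : ℝ) ≤ s * (c * ((pts A Q).card : ℝ)) := by
    refine card_long' hA hs hc hk B2 ?_
    intro p hp
    obtain ⟨h1, h2, h3⟩ := Finset.mem_filter.mp hp
    rw [Finset.mem_product] at h1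
    exact ⟨h1.1, h1.2, h2, h3⟩
  have hb : b.card * (t - 1) ≤ A.card := card_bad hA hz hzQ (by omega)
  have hc1 : 0 < c - 1 := by linarith
  have hB2' : (B2.card : ℝ) ≤ s * (c / (c - 1) * (pts A Q).card) := by
    have e1 : s * (c / (c - 1) * ((pts A Q).card : ℝ)) =
        (s * (c * ((pts A Q).card : ℝ))) / (c - 1) := by
      field_simp
    rw [e1, le_div_iff₀ hc1]
    linarith
  have ht1 : (0 : ℝ) < (t : ℝ) - 1 := by
    have : (2 : ℝ) ≤ t := by exact_mod_cast ht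
    linarith
  have hb' : (b.card : ℝ) ≤ A.card / ((t : ℝ) - 1) := by
    rw [le_div_iff₀ ht1]
    have h1 : ((b.card * (t - 1) : ℕ) : ℝ) ≤ (A.card : ℝ) := by exact_mod_cast hb
    rw [Nat.cast_mul, Nat.cast_sub (by omega)] at h1
    simpa using h1
  have hcardR : ((pts A Q).card : ℝ) * (pts A Q).card ≤ (Pt A Q o k t z).card + D.card + B1.card +
      B2.card + b.card * (pts A Q).card + (pts A Q).card * b.card := by exact_mod_cast hcard
  have hDR : (D.card : ℝ) ≤ (pts A Q).card := by exact_mod_cast hD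
  have hB1R : (B1.card : ℝ) ≤ (pts A Q).card * k := by exact_mod_cast hB1
  have hN0 : (0 : ℝ) ≤ (pts A Q).card := Nat.cast_nonneg _
  have hbN := mul_le_mul_of_nonneg_right hb' hN0
  have e2 : 2 * ((pts A Q).card : ℝ) * A.card / ((t : ℝ) - 1) =
      2 * (A.card / ((t : ℝ) - 1) * (pts A Q).card) := by ring
  rw [e2]
  nlinarith

/-- The triples. -/
noncomputable def V1 (A : Finset L) (Q o : L) (k t : ℕ) : Finset (L × L × L) :=
  (V0 A Q o k).filter (fun v => v.2 ∈ Pt A Q o k t v.1)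

theorem mem_V1 {A : Finset L} {Q o : L} {k t : ℕ} {v : L × L × L} :
    v ∈ V1 A Q o k t ↔ v.1 ∈ A ∧ ¬ v.1 ≤ Q ∧ v.1 ≠ o ∧ v.2 ∈ Pt A Q o k t v.1 := by
  simp only [V1, Finset.mem_filter, mem_V0, Pt]
  tauto

theorem ld_mono {V V' : Finset (L × L × L)} (h : V ⊆ V') {w : L × L × L → ℝ}
    (hw : ∀ v, 0 ≤ w v) (x : L) : ld V w x ≤ ld V' w x := by
  unfold ld
  exact Finset.sum_le_sum_of_subset_of_nonneg (Finset.filter_subset_filter _ h)
    (fun v _ _ => hw v)

theorem line_load1 {A : Finset L} (hA : ∀ a ∈ A, IsAtom a) {Q o z q : L} {k t : ℕ} {c0 m : ℝ}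
    (hc0 : 0 < c0) (hm : 0 < m) (hst : (pts A (z ⊔ q)).card ≤ t)
    (hz : z ∈ A) (hzQ : ¬ z ≤ Q) (hq : q ∈ A) (hqQ : q ≤ Q) :
    ld (V0 A Q o k) (wt A Q c0 m) (z ⊔ q) ≤ 2 * t * (pts A Q).card / (c0 * m) := by
  set g := z ⊔ q with hg
  have hrg : rk g = 2 := rk_two (hA _ hz) hzQ (hA _ hq) hqQ
  let E1 : Finset (L × L × L) := (pts A g ×ˢ pts A Q).image (fun t => (t.1, q, t.2))
  let E2 : Finset (L × L × L) := (pts A g ×ˢ pts A Q).image (fun t => (t.1, t.2, q))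
  have hb : ∀ r, IsAtom r → r ≤ Q → r ≤ g → r = q := by
    intro r hr hrQ hrg'
    have h1 := cone_inf (hA _ hz) hzQ hqQ hr hrQ hrg'
    exact eq_of_le_of_rk h1 (by rw [rk_atom hr, rk_atom (hA _ hq)])
  have key : (V0 A Q o k).filter (fun u => Uses u g) ⊆ E1 ∪ E2 := by
    intro u hu
    obtain ⟨hu1, hu2⟩ := Finset.mem_filter.mp hu
    obtain ⟨hx, hxQ, hxo, hp'⟩ := mem_V0.mp hu1
    obtain ⟨k1, k2, k3, k4, k5⟩ := mem_Pz.mp hp'
    have k1' := mem_pts.mp k1
    have k2' := mem_pts.mp k2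
    rw [Finset.mem_union, Finset.mem_image, Finset.mem_image]
    rcases hu2 with h | h | h
    · left
      have e1 : u.2.1 = q := hb _ (hA _ k1'.1) k1'.2 (by rw [h]; exact le_sup_right)
      refine ⟨(u.1, u.2.2), ?_, ?_⟩
      · rw [Finset.mem_product]
        exact ⟨mem_pts.mpr ⟨hx, by rw [h]; exact le_sup_left⟩, k2⟩
      · rw [← e1]
    · right
      have e1 : u.2.2 = q := hb _ (hA _ k2'.1) k2'.2 (by rw [h]; exact le_sup_right)
      refine ⟨(u.1, u.2.1), ?_, ?_⟩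
      · rw [Finset.mem_product]
        exact ⟨mem_pts.mpr ⟨hx, by rw [h]; exact le_sup_left⟩, k1⟩
      · rw [← e1]
    · exfalso
      have := rk_tri (hA _ hx) hxQ (hA _ k1'.1) k1'.2 (hA _ k2'.1) k2'.2 k3
      rw [← h, hrg] at this
      omega
  have hcard : ((V0 A Q o k).filter (fun u => Uses u g)).card ≤ 2 * (t * (pts A Q).card) := by
    refine (Finset.card_le_card key).trans ((Finset.card_union_le _ _).trans ?_)
    have e1 : E1.card ≤ t * (pts A Q).card := by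
      refine Finset.card_image_le.trans ?_
      rw [Finset.card_product]
      exact Nat.mul_le_mul_right _ hst
    have e2 : E2.card ≤ t * (pts A Q).card := by
      refine Finset.card_image_le.trans ?_
      rw [Finset.card_product]
      exact Nat.mul_le_mul_right _ hst
    omega
  have hw : ∀ u ∈ (V0 A Q o k).filter (fun u => Uses u g), wt A Q c0 m u ≤ (c0 * m)⁻¹ := by
    intro u _
    unfold wt
    apply inv_anti₀ (mul_pos hc0 hm)
    apply mul_le_mul_of_nonneg_left _ hc0.le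
    have : (0 : ℝ) ≤ ((off A Q (u.1 ⊔ u.2.1 ⊔ u.2.2)).card : ℝ) := Nat.cast_nonneg _
    linarith
  unfold ld
  refine (Finset.sum_le_sum hw).trans ?_
  rw [Finset.sum_const, nsmul_eq_mul, div_eq_mul_inv]
  apply mul_le_mul_of_nonneg_right _ (inv_pos.mpr (mul_pos hc0 hm)).le
  have : (((V0 A Q o k).filter (fun u => Uses u g)).card : ℝ) ≤
      ((2 * (t * (pts A Q).card) : ℕ) : ℝ) := by exact_mod_cast hcard
  push_cast at this
  linarith

/-- **Rank four data over a large plane**, with parameters; the lines off `Q` are arbitrary. -/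
theorem crit4_param2 {A : Finset L} (hA : ∀ a ∈ A, IsAtom a) (hr : rk (A.sup id) = 4) {Q : L}
    (hQ : rk Q = 3) {s k t : ℕ} (hs : ∀ g, g ≤ Q → rk g = 2 → (pts A g).card ≤ s)
    (ht : 2 ≤ t) (hk1 : 1 ≤ k) (hsN : s < (pts A Q).card) (hN2 : 2 ≤ (pts A Q).card)
    {c m c0 P0 : ℝ} (hc : 1 < c) (hm : 0 < m)
    (hc0 : 0 < c0) (hk : c * ((pts A Q).card : ℝ) ≤ ((k : ℝ) + 1) ^ 2)
    (h2 : (k : ℝ) ^ 2 + 4 * t * (pts A Q).card / m ≤ c0) (hP0 : 0 ≤ P0)
    (h3 : P0 + (pts A Q).card + k * (pts A Q).card + s * (c / (c - 1) * (pts A Q).card) +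
      2 * (pts A Q).card * A.card / ((t : ℝ) - 1) ≤ ((pts A Q).card : ℝ) ^ 2)
    (h4 : c0 * (((pts A Q).card : ℝ) ^ 2 + A.card * ((pts A Q).card * k) +
      m * ((pts A Q).card : ℝ) ^ 2) ≤ P0 ^ 2) : Crit4 A := by
  -- the point `o`
  obtain ⟨o, ho, hoQ⟩ : ∃ o ∈ A, ¬ o ≤ Q := by
    by_contra hcon
    push Not at hcon
    have h1 : A.sup id ≤ Q := Finset.sup_le hcon
    have h2 := rk_mono h1
    omega
  -- the rank of the points of `Q`
  have hle : (pts A Q).sup id ≤ Q := Finset.sup_le fun x hx => (mem_pts.mp hx).2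
  have hrQ : rk ((pts A Q).sup id) = 3 := by
    have h5 := rk_mono hle
    by_contra hne
    have h6 : rk ((pts A Q).sup id) ≤ 2 := by omega
    have h7 : rk ((pts A Q).sup id) = 2 := by
      have h8 : ∃ q ∈ pts A Q, ∃ r ∈ pts A Q, q ≠ r := by
        have : 1 < (pts A Q).card := by omega
        obtain ⟨q, hq, r, hr, hqr⟩ := Finset.one_lt_card.mp this
        exact ⟨q, hq, r, hr, hqr⟩
      obtain ⟨q, hq, r, hr', hqr⟩ := h8
      have h9 : rk (q ⊔ r) = 2 :=
        rk_line (hA _ (mem_pts.mp hq).1) (hA _ (mem_pts.mp hr').1) hqr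
      have h10 : q ⊔ r ≤ (pts A Q).sup id :=
        sup_le (Finset.le_sup (f := id) hq) (Finset.le_sup (f := id) hr')
      have := rk_mono h10
      omega
    have h8 : pts A Q ⊆ pts A ((pts A Q).sup id) := by
      intro x hx
      exact mem_pts.mpr ⟨(mem_pts.mp hx).1, Finset.le_sup (f := id) hx⟩
    have := Finset.card_le_card h8
    have := hs _ hle h7
    omega
  have hB4 : Crit4 (insert o (pts A Q)) := by
    have h5 := crit4_base (A := A) hA hQ ho hoQ
      (Pool.Agent.Helper80.BP.crit3_all (A.filter (· ≤ Q))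
        (fun a ha => hA a (Finset.mem_filter.mp ha).1) hrQ)
    exact h5
  set N : ℝ := ((pts A Q).card : ℝ) with hN
  have hN1 : 1 ≤ N := by
    rw [hN]
    exact_mod_cast (by omega : 1 ≤ (pts A Q).card)
  have hBm : ∀ a, a ∈ insert o (pts A Q) → a = o ∨ (a ∈ A ∧ a ≤ Q) := by
    intro a ha
    rcases Finset.mem_insert.mp ha with h | h
    · exact Or.inl h
    · exact Or.inr (mem_pts.mp h)
  have hnB : ∀ x ∈ A, x ∉ insert o (pts A Q) → ¬ x ≤ Q ∧ x ≠ o := by
    intro x hx h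
    rw [Finset.mem_insert, mem_pts] at h
    push Not at h
    exact ⟨h.2 hx, h.1⟩
  have hw0 : ∀ v, 0 ≤ wt A Q c0 m v := by
    intro v
    unfold wt
    positivity
  have hV10 : V1 A Q o k t ⊆ V0 A Q o k := Finset.filter_subset _ _
  refine crit4_of_pairs (A := A) (B := insert o (pts A Q)) (V0 := V1 A Q o k t)
    (w := wt A Q c0 m) hA ?_ hB4 hw0 ?_ ?_ ?_ ?_ ?_ ?_
  · intro a ha
    rcases hBm a ha with rfl | h
    · exact ho
    · exact h.1
  · intro v hv
    obtain ⟨hz, hzQ, hzo, hp⟩ := mem_V0.mp (hV10 hv)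
    obtain ⟨g1, g2, g3, g4, g5⟩ := mem_Pz.mp hp
    rw [mem_pts] at g1 g2
    refine ⟨hz, ?_, g1.1, g2.1, rk_tri (hA _ hz) hzQ (hA _ g1.1) g1.2 (hA _ g2.1) g2.2 g3⟩
    intro h
    rcases hBm _ h with h | h
    · exact hzo h
    · exact hzQ h.2
  · intro v hv a ha e he hae h5 h6
    obtain ⟨hz, hzQ, hzo, hp⟩ := mem_V0.mp (hV10 hv)
    obtain ⟨g1, g2, g3, g4, g5⟩ := mem_Pz.mp hp
    rw [mem_pts] at g1 g2
    have hb : ∀ r, (r = o ∨ (r ∈ A ∧ r ≤ Q)) → r ≤ v.1 ⊔ v.2.1 → r = v.2.1 := by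
      rintro r (rfl | ⟨h7, h8⟩) h9
      · exact absurd (h9.trans le_sup_left) g5
      · have h10 := cone_inf (hA _ hz) hzQ g1.2 (hA _ h7) h8 h9
        exact eq_of_le_of_rk h10 (by rw [rk_atom (hA _ h7), rk_atom (hA _ g1.1)])
    exact hae ((hb a (hBm a ha) h5).trans (hb e (hBm e he) h6).symm)
  · intro v hv a ha e he hae h5 h6
    obtain ⟨hz, hzQ, hzo, hp⟩ := mem_V0.mp (hV10 hv)
    obtain ⟨g1, g2, g3, g4, g5⟩ := mem_Pz.mp hp
    rw [mem_pts] at g1 g2
    have hb : ∀ r, (r = o ∨ (r ∈ A ∧ r ≤ Q)) → r ≤ v.1 ⊔ v.2.2 → r = v.2.2 := by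
      rintro r (rfl | ⟨h7, h8⟩) h9
      · exact absurd (h9.trans (sup_le (le_sup_left.trans le_sup_left) le_sup_right)) g5
      · have h10 := cone_inf (hA _ hz) hzQ g2.2 (hA _ h7) h8 h9
        exact eq_of_le_of_rk h10 (by rw [rk_atom (hA _ h7), rk_atom (hA _ g2.1)])
    exact hae ((hb a (hBm a ha) h5).trans (hb e (hBm e he) h6).symm)
  · intro v hv a ha e he t ht h5 h6 h7 h8
    obtain ⟨hz, hzQ, hzo, hp⟩ := mem_V0.mp (hV10 hv)
    obtain ⟨g1, g2, g3, g4, g5⟩ := mem_Pz.mp hp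
    rw [mem_pts] at g1 g2
    have hb : ∀ r, (r = o ∨ (r ∈ A ∧ r ≤ Q)) → r ≤ v.1 ⊔ v.2.1 ⊔ v.2.2 →
        r ≤ v.2.1 ⊔ v.2.2 := by
      rintro r (rfl | ⟨h7, h8⟩) h9
      · exact absurd h9 g5
      · refine cone_inf (hA _ hz) hzQ (sup_le g1.2 g2.2) (hA _ h7) h8 ?_
        rw [← sup_assoc]
        exact h9
    have h9 : a ⊔ e ⊔ t ≤ v.2.1 ⊔ v.2.2 :=
      sup_le (sup_le (hb a (hBm a ha) h6) (hb e (hBm e he) h7)) (hb t (hBm t ht) h8)
    have h10 := rk_mono h9
    rw [h5, rk_line (hA _ g1.1) (hA _ g2.1) g3] at h10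
    omega
  · intro z hz hzB
    obtain ⟨hzQ, hzo⟩ := hnB z hz hzB
    have e1 : ∑ p ∈ Pt A Q o k t z, wt A Q c0 m (z, p) ≤
        ∑ v ∈ (V1 A Q o k t).filter (fun v => v.1 = z), wt A Q c0 m v := by
      rw [← Finset.sum_image (f := fun v => wt A Q c0 m v)
        (g := fun p : L × L => (z, p)) (s := Pt A Q o k t z)
        (fun p _ p' _ h => (Prod.ext_iff.mp h).2)]
      refine Finset.sum_le_sum_of_subset_of_nonneg ?_ (fun v _ _ => hw0 v)
      intro v hv
      obtain ⟨p, hp, rfl⟩ := Finset.mem_image.mp hv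
      rw [Finset.mem_filter]
      exact ⟨mem_V1.mpr ⟨hz, hzQ, hzo, hp⟩, rfl⟩
    refine le_trans ?_ e1
    have e2 := card_Pt hA ho hoQ hz hzQ hzo hk1 ht hs hc hk
    have e3 : P0 ≤ ((Pt A Q o k t z).card : ℝ) := by linarith
    have e4 : ∑ p ∈ Pt A Q o k t z, (off A Q (z ⊔ p.1 ⊔ p.2)).card ≤
        (pts A Q).card ^ 2 + A.card * ((pts A Q).card * k) :=
      (Finset.sum_le_sum_of_subset (Finset.filter_subset _ _)).trans
        (sum_off (o := o) hA hz hzQ hk1)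
    have hpos : ∀ p ∈ Pt A Q o k t z,
        0 < c0 * (((off A Q (z ⊔ p.1 ⊔ p.2)).card : ℝ) + m) := by
      intro p _
      positivity
    have e5 := Finset.sq_sum_div_le_sum_sq_div (Pt A Q o k t z) (fun _ => (1 : ℝ)) hpos
    have e6 : ∑ p ∈ Pt A Q o k t z,
        (1 : ℝ) ^ 2 / (c0 * (((off A Q (z ⊔ p.1 ⊔ p.2)).card : ℝ) + m)) =
        ∑ p ∈ Pt A Q o k t z, wt A Q c0 m (z, p) := by
      refine Finset.sum_congr rfl fun p _ => ?_
      unfold wt
      rw [one_pow, one_div]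
    rw [e6] at e5
    refine le_trans ?_ e5
    have e7 : ∑ p ∈ Pt A Q o k t z, (1 : ℝ) = ((Pt A Q o k t z).card : ℝ) := by simp
    rw [e7]
    have e8 : ∑ p ∈ Pt A Q o k t z, c0 * (((off A Q (z ⊔ p.1 ⊔ p.2)).card : ℝ) + m) =
        c0 * (((∑ p ∈ Pt A Q o k t z, (off A Q (z ⊔ p.1 ⊔ p.2)).card : ℕ) : ℝ) +
          m * (Pt A Q o k t z).card) := by
      rw [← Finset.mul_sum, Finset.sum_add_distrib, Finset.sum_const, nsmul_eq_mul]
      push_cast
      ring
    rw [e8]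
    have e9 : ((∑ p ∈ Pt A Q o k t z, (off A Q (z ⊔ p.1 ⊔ p.2)).card : ℕ) : ℝ) ≤
        N ^ 2 + A.card * (N * k) := by
      have : ((∑ p ∈ Pt A Q o k t z, (off A Q (z ⊔ p.1 ⊔ p.2)).card : ℕ) : ℝ) ≤
          (((pts A Q).card ^ 2 + A.card * ((pts A Q).card * k) : ℕ) : ℝ) := by
        exact_mod_cast e4
      rw [hN]
      refine this.trans (le_of_eq ?_)
      push_cast
      ring
    have e10 : ((Pt A Q o k t z).card : ℝ) ≤ N ^ 2 := by
      have h5 : (Pt A Q o k t z).card ≤ (pts A Q).card ^ 2 := by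
        refine (Finset.card_filter_le _ _).trans ?_
        refine (Finset.card_filter_le _ _).trans ?_
        rw [Finset.card_product, sq]
      rw [hN]
      exact_mod_cast h5
    have hkR : (1 : ℝ) ≤ k := by exact_mod_cast hk1
    have e11 : 0 < c0 * (N ^ 2 + A.card * (N * k) + m * N ^ 2) := by positivity
    have e12 : 0 < P0 := by
      rcases hP0.eq_or_lt with h | h
      · rw [← h] at h4
        norm_num at h4
        linarith
      · exact h
    have e13 : 0 < ((Pt A Q o k t z).card : ℝ) := lt_of_lt_of_le e12 e3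
    rw [le_div_iff₀ (mul_pos hc0 (add_pos_of_nonneg_of_pos (Nat.cast_nonneg _)
      (mul_pos hm e13))), one_mul]
    calc c0 * (((∑ p ∈ Pt A Q o k t z, (off A Q (z ⊔ p.1 ⊔ p.2)).card : ℕ) : ℝ) +
          m * (Pt A Q o k t z).card)
        ≤ c0 * (N ^ 2 + A.card * (N * k) + m * N ^ 2) := by
          apply mul_le_mul_of_nonneg_left _ hc0.le
          have := mul_le_mul_of_nonneg_left e10 hm.le
          linarith
      _ ≤ P0 ^ 2 := h4
      _ ≤ _ := pow_le_pow_left₀ hP0 e3 2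
  · intro v hv _
    have hvt := (Finset.mem_filter.mp (Finset.mem_filter.mp hv).2).2
    obtain ⟨hz, hzQ, hzo, hp⟩ := mem_V0.mp (hV10 hv)
    obtain ⟨g1, g2, g3, g4, g5⟩ := mem_Pz.mp hp
    rw [mem_pts] at g1 g2
    have l1 := (ld_mono hV10 hw0 _).trans
      (line_load1 (o := o) (k := k) hA hc0 hm hvt.1 hz hzQ g1.1 g1.2)
    have l2 := (ld_mono hV10 hw0 _).trans
      (line_load1 (o := o) (k := k) hA hc0 hm hvt.2 hz hzQ g2.1 g2.2)
    have l3 := (ld_mono hV10 hw0 _).trans (plane_load hA hc0 hm (hV10 hv))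
    have e1 : 2 * (t : ℝ) * (pts A Q).card / (c0 * m) + 2 * t * (pts A Q).card / (c0 * m) +
        (k : ℝ) ^ 2 / c0 ≤ 1 := by
      have e2 : 2 * (t : ℝ) * (pts A Q).card / (c0 * m) + 2 * t * (pts A Q).card / (c0 * m) +
          (k : ℝ) ^ 2 / c0 = ((k : ℝ) ^ 2 + 4 * t * (pts A Q).card / m) / c0 := by
        field_simp
        ring
      rw [e2, div_le_one hc0]
      exact h2
    linarith

end Pool.Agent.Helper26.PC
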