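import Pool.Agent.Helper26.PC.Main

/-!
# Rank four data over a large plane: numbers
-/

set_option autoImplicit false
set_option linter.unusedSectionVars false

namespace Pool.Agent.Helper26.PC

open Finset Pool.Agent.Helper28.BPack Pool.Agent.Helper61.Motz
open scoped Classical

variable {L : Type} [Lattice L] [BoundedOrder L] [Finite L] [IsUpperModularLattice L]

/-- **(C')**: some plane `Q` has `N` points, no line has more than `N / 100` points and
`30 n ^ 2 ≤ N ^ 3`. -/
theorem crit4_planeC {A : Finset L} (hA : ∀ a ∈ A, IsAtom a) (hr : rk (A.sup id) = 4) {Q : L}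
    (hQ : rk Q = 3) (hs : ∀ g, rk g = 2 → 100 * (A.filter (· ≤ g)).card ≤ (A.filter (· ≤ Q)).card)
    (hn : 30 * A.card ^ 2 ≤ (A.filter (· ≤ Q)).card ^ 3) : Crit4 A := by
  have hs' : ∀ g, rk g = 2 → 100 * (pts A g).card ≤ (pts A Q).card := hs
  have hn' : 30 * A.card ^ 2 ≤ (pts A Q).card ^ 3 := hn
  -- two points
  have hA2 : 1 < A.card := by
    by_contra hcon
    have h1 : A.card ≤ 1 := by omega
    have h2 : rk (A.sup id) ≤ 1 := by
      rcases A.eq_empty_or_nonempty with h | ⟨a, ha⟩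
      · rw [h, Finset.sup_empty, rk_bot]
        omega
      · have h3 : A.sup id ≤ a := Finset.sup_le fun x hx =>
          le_of_eq (Finset.card_le_one.mp h1 x hx a ha)
        have h4 := rk_mono h3
        rw [rk_atom (hA a ha)] at h4
        exact h4
    omega
  obtain ⟨a, ha, b, hb, hab⟩ := Finset.one_lt_card.mp hA2
  have hN : 200 ≤ (pts A Q).card := by
    have h1 := hs' (a ⊔ b) (rk_line (hA a ha) (hA b hb) hab)
    have h2 : 2 ≤ (pts A (a ⊔ b)).card := by
      have h3 : ({a, b} : Finset L) ⊆ pts A (a ⊔ b) := by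
        intro x hx
        rw [Finset.mem_insert, Finset.mem_singleton] at hx
        rcases hx with rfl | rfl
        · exact mem_pts.mpr ⟨ha, le_sup_left⟩
        · exact mem_pts.mpr ⟨hb, le_sup_right⟩
      have h4 := Finset.card_le_card h3
      rw [Finset.card_pair hab] at h4
      exact h4
    omega
  set N0 : ℕ := (pts A Q).card with hN0
  set s : ℕ := N0 / 100 with hsdef
  set k : ℕ := Nat.sqrt (2 * N0) with hkdef
  have hs1 : 2 ≤ s := by omega
  have hk1 : 1 ≤ k := by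
    rw [hkdef, Nat.le_sqrt]
    omega
  have hkk : k * k ≤ 2 * N0 := Nat.sqrt_le _
  have hkk' : 2 * N0 ≤ (k + 1) * (k + 1) := (Nat.lt_succ_sqrt (2 * N0)).le
  set N : ℝ := (N0 : ℝ) with hNR
  set n : ℝ := (A.card : ℝ) with hnR
  have hN200 : (200 : ℝ) ≤ N := by rw [hNR]; exact_mod_cast hN
  have hsR : (100 : ℝ) * s ≤ N := by
    have h1 : 100 * s ≤ N0 := by omega
    rw [hNR]
    exact_mod_cast h1
  have hs1R : (2 : ℝ) ≤ s := by exact_mod_cast hs1
  have hkR : (k : ℝ) ^ 2 ≤ 2 * N := by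
    rw [hNR, sq]
    exact_mod_cast hkk
  have hkR' : 2 * N ≤ ((k : ℝ) + 1) ^ 2 := by
    rw [hNR, sq]
    exact_mod_cast hkk'
  have hnR' : 30 * n ^ 2 ≤ N ^ 3 := by
    rw [hNR, hnR]
    exact_mod_cast hn'
  have hn0 : 0 ≤ n := Nat.cast_nonneg _
  have hk0 : (0 : ℝ) ≤ k := Nat.cast_nonneg _
  have hNpos : 0 < N := by linarith
  have hnk : n * k ≤ 0.2583 * N ^ 2 := by
    have h1 : (n * k) ^ 2 ≤ (0.2583 * N ^ 2) ^ 2 := by
      have h2 : (n * k) ^ 2 ≤ n ^ 2 * (2 * N) := by
        rw [mul_pow]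
        exact mul_le_mul_of_nonneg_left hkR (sq_nonneg n)
      have h3 : 30 * n ^ 2 * (2 * N) ≤ N ^ 3 * (2 * N) :=
        mul_le_mul_of_nonneg_right hnR' (by linarith)
      have h4 : 0 ≤ N ^ 4 := by positivity
      nlinarith
    exact (pow_le_pow_iff_left₀ (mul_nonneg hn0 hk0) (by positivity) two_ne_zero).mp h1
  refine crit4_param (A := A) (Q := Q) (s := s) (k := k) (c := 2) (m := 4 * s) (c0 := 3 * N)
    (P0 := 0.96 * N ^ 2) hA hr hQ ?_ (by omega) hk1 ?_ (by norm_num) (by linarith)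
    (by linarith) ?_ ?_ (by positivity) ?_ ?_
  · intro g hg
    have := hs' g hg
    omega
  · rw [← hN0]
    omega
  · rw [← hN0, ← hNR]
    exact hkR'
  · rw [← hN0, ← hNR]
    have h1 : 4 * (s : ℝ) * N / (4 * s) = N := by
      field_simp
    rw [h1]
    linarith
  · rw [← hN0, ← hNR]
    have h1 : (2 : ℝ) / (2 - 1) = 2 := by norm_num
    rw [h1]
    nlinarith
  · rw [← hN0, ← hNR, ← hnR]
    have h1 : 0 ≤ N ^ 2 := by positivity
    have h2 : N ^ 3 * 200 ≤ N ^ 4 := by
      have : N ^ 4 = N ^ 3 * N := by ring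
      rw [this]
      exact mul_le_mul_of_nonneg_left hN200 (by positivity)
    have h3 : (n * k) * N ^ 2 ≤ 0.2583 * N ^ 2 * N ^ 2 := mul_le_mul_of_nonneg_right hnk h1
    have h4 : (100 * (s : ℝ)) * N ^ 3 ≤ N * N ^ 3 :=
      mul_le_mul_of_nonneg_right hsR (by positivity)
    nlinarith

end Pool.Agent.Helper26.PC
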